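import Pool.Agent.H928R2.TriM5
import Pool.Agent.V11321.TZ.Coord

/-!
# Trapezoidal pairs whose branch curve is invariant under a linear vector field

Let `N⁰(F)` be a trapezoid, `[F, G]` constant, and let `R` be the ring of the polynomials which are
integral over `ℂ[F, G]` (the coordinate ring of the normalisation of the target plane in the source
plane, a finite covering of the target).  Let `D ≠ 0` be a polynomial in the coordinates of the target
such that this covering is unramified outside the curve `D = 0`, in the sense that the vector fields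
`∂/∂F`, `∂/∂G` preserve `R[1/D]`.  If in some coordinates `u, v` of the target the curve `D = 0` is
invariant under a nonzero vector field `a(u) ∂_u + (b(u) v + c(u)) ∂_v`, then `[F, G] = 0`.

This covers for instance branch curves consisting of arbitrarily many fibres `u = const` and a graph
`b(u) v = c(u)`, and all quasi-homogeneous curves.

Proof: a Keller map with such a branch curve is birational, hence an automorphism (library file
`Pool.Agent.H928R2.TriM5`); a trapezoid is not the Newton polygon of a component of an automorphism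
(`Pool.Agent.V11321.TZ.Coord`).
-/

set_option autoImplicit false

open MvPolynomial

namespace Pool.Agent.Results.MP_2d59ee_ag.BranchCurve

/-- The polygon `N⁰(F)`: the convex hull of the exponents of `F` and the origin. -/
def newtonPolygon (F : MvPolynomial (Fin 2) ℂ) : Set (ℝ × ℝ) :=
  convexHull ℝ (insert ((0:ℝ), (0:ℝ))
    ((fun d : Fin 2 →₀ ℕ => ((d 0 : ℝ), (d 1 : ℝ))) '' (↑F.support : Set (Fin 2 →₀ ℕ))))

/-- The trapezoid `T_{m,n}`. -/
def trapezoid (m n : ℕ) : Set (ℝ × ℝ) :=
  {p | 0 ≤ p.2 ∧ p.2 ≤ (n : ℝ) ∧ 0 ≤ p.1 ∧ p.1 ≤ (m : ℝ) + (n : ℝ) - p.2}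

/-- The bracket `[F, G] = F_x G_y - F_y G_x`. -/
noncomputable def bracket (F G : MvPolynomial (Fin 2) ℂ) : MvPolynomial (Fin 2) ℂ :=
  pderiv 0 F * pderiv 1 G - pderiv 1 F * pderiv 0 G

/-- `b` is integral over the algebra `ℂ[F, G]`. -/
def Integral (F G b : MvPolynomial (Fin 2) ℂ) : Prop :=
  IsIntegral (Algebra.adjoin ℂ ({F, G} : Set (MvPolynomial (Fin 2) ℂ))) b

/-- The curve `D = 0` in the target of `(F, G)` contains the branch curve: for every polynomial `b`
integral over `ℂ[F, G]` there is `N` such that `D(F, G) ^ N [F, b]` and `D(F, G) ^ N [G, b]` are integral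
over `ℂ[F, G]`. -/
def BranchedOver (F G D : MvPolynomial (Fin 2) ℂ) : Prop :=
  ∀ b, Integral F G b → ∃ N : ℕ, Integral F G ((aeval ![F, G] D) ^ N * bracket F b) ∧
    Integral F G ((aeval ![F, G] D) ^ N * bracket G b)

/-- The curve `E = 0` is invariant under the vector field `a(u) ∂_u + (b(u) v + c(u)) ∂_v`, where
`u = X 0` and `v = X 1`: `E` divides its derivative along this vector field. -/
def Invariant (E : MvPolynomial (Fin 2) ℂ) (a b c : Polynomial ℂ) : Prop :=
  E ∣ Polynomial.aeval (X 0) a * pderiv 0 E +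
    (Polynomial.aeval (X 0) b * X 1 + Polynomial.aeval (X 0) c) * pderiv 1 E

/-- Let `m, n > 0`, let the Newton polygon of `F` be the trapezoid `T_{m,n}` and let the bracket
`[F, G]` be constant.  Suppose that the branch curve of `(F, G)` is contained in a curve `D = 0`, `D ≠ 0`,
and that for some automorphism `Ψ` of the target the curve `Ψ D = 0` is invariant under a nonzero
vector field `a(u) ∂_u + (b(u) v + c(u)) ∂_v`.  Then `[F, G] = 0`. -/
theorem result (m n : ℕ) (hm : 0 < m) (hn : 0 < n) (F G : MvPolynomial (Fin 2) ℂ)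
    (h1 : newtonPolygon F = trapezoid m n) (h5 : ∃ c : ℂ, bracket F G = C c)
    (D : MvPolynomial (Fin 2) ℂ) (hD : D ≠ 0) (hbr : BranchedOver F G D)
    (Ψ : MvPolynomial (Fin 2) ℂ ≃ₐ[ℂ] MvPolynomial (Fin 2) ℂ) (a b c : Polynomial ℂ)
    (habc : a ≠ 0 ∨ b ≠ 0 ∨ c ≠ 0) (hinv : Invariant (Ψ D) a b c) : bracket F G = 0 := by
  obtain ⟨c', hc⟩ := h5
  by_cases hc0 : c' = 0
  · rw [hc, hc0, map_zero]
  exfalso
  have hJF : IsUnit (Pool.Agent.H922R2.jac (![F, G] : Fin 2 → MvPolynomial (Fin 2) ℂ)).det := by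
    rw [Matrix.det_fin_two]
    change IsUnit (bracket F G)
    rw [hc]
    exact (isUnit_iff_ne_zero.2 hc0).map C
  have hrange : Set.range (![F, G] : Fin 2 → MvPolynomial (Fin 2) ℂ) = {F, G} := by
    ext x
    rw [Set.mem_range, Fin.exists_fin_two, Set.mem_insert_iff, Set.mem_singleton_iff]
    exact or_congr eq_comm eq_comm
  have hkey := Pool.Agent.H928R2.Tri.main_M_aut (k := ℂ) ![F, G] hJF ⊤
    (fun _ => IntermediateField.mem_top) D hD
    (by
      intro q _ hq j
      rw [hrange] at hq ⊢
      obtain ⟨N, hN0, hN1⟩ := hbr q hq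
      refine ⟨N, ?_⟩
      fin_cases j
      · exact hN0
      · exact hN1)
    Ψ a b c habc hinv
  have hSS := Pool.Agent.H928R2.Tri.top_of_field (k := ℂ) ![F, G] hJF
    (fun z => hkey z IntermediateField.mem_top)
  have h2 : ∀ i, ∃ g : MvPolynomial (Fin 2) ℂ, aeval ![F, G] g = (X i : MvPolynomial (Fin 2) ℂ) := by
    intro i
    have h3 : (X i : MvPolynomial (Fin 2) ℂ) ∈ Pool.Agent.H922R2.SS ![F, G] := by
      rw [hSS]; trivial
    obtain ⟨g, hg⟩ := h3
    exact ⟨g, hg⟩
  choose T' hT' using h2
  have hFinj := Pool.Agent.H922R2.aeval_injective ![F, G] hJF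
  have h4 : ∀ p, aeval ![F, G] (aeval T' p) = p := by
    intro p
    have h5 : (aeval ![F, G] : MvPolynomial (Fin 2) ℂ →ₐ[ℂ] _).comp (aeval T') =
        AlgHom.id ℂ (MvPolynomial (Fin 2) ℂ) := by
      apply MvPolynomial.algHom_ext
      intro j
      rw [AlgHom.comp_apply, aeval_X, hT']
      rfl
    exact congrArg (fun f => f p) h5
  have h6 : ∀ p, aeval T' (aeval ![F, G] p) = p := by
    intro p
    apply hFinj
    rw [h4]
  let θ : Pool.Agent.H922R2.GA ℂ :=
    AlgEquiv.ofAlgHom (aeval ![F, G]) (aeval T')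
      (AlgHom.ext fun p => h4 p) (AlgHom.ext fun p => h6 p)
  refine Pool.Agent.V11321.TZ.not_coord hm hn h1 θ ?_
  change aeval ![F, G] (X 0) = F
  rw [aeval_X]
  rfl

end Pool.Agent.Results.MP_2d59ee_ag.BranchCurve
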