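import Pool.Agent.H193R5.EG.Seq
import Pool.Agent.H193R5.EG.TaskSUB
import Pool.Agent.H193R5.EG.TaskANI
import Pool.Agent.H193R5.EG.TaskSTDP
import Pool.Agent.H510R3.EG.TaskKELP
import Pool.Agent.H68R3.EG.TaskLEMM
import Pool.Agent.H747R3.EG.TaskRTWO
import Pool.Agent.H790.EG.TaskRONE
import Pool.Agent.H87R3.EG.TaskFORM
import Pool.Agent.V11321.TZ.Coord

/-!
# Trapezoidal pairs: exponential growth of every polynomial

Let the Newton polygon of `F` be a trapezoid and let `[F, G]` be constant.  Take a composite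
`M = S_k ∘ (F, G) ∘ S_{k-1} ∘ ... ∘ (F, G) ∘ S_0` with `k` factors `(F, G)` and arbitrary polynomial
maps `S_i` with nonzero constant Jacobian (for instance the identity).  If there is a nonconstant
polynomial `p` such that the degree `N` of `p ∘ M` satisfies `18 N ^ 2 < 2 ^ k`, then `[F, G] = 0`.

So for a counterexample to the conjecture no nonconstant polynomial has small degree after
composition with `k` factors `(F, G)`: all degrees grow at least like `2 ^ (k / 2)`.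
-/

set_option autoImplicit false

open MvPolynomial Pool.Agent.H88R2.DC Pool.Agent.H193R5.EG

namespace Pool.Agent.Results.MP_2d59ee_ag.ExponentialGrowth

/-- The polygon `N⁰(F)`: the convex hull of the exponents of `F` and the origin. -/
def newtonPolygon (F : MvPolynomial (Fin 2) ℂ) : Set (ℝ × ℝ) :=
  convexHull ℝ (insert ((0:ℝ), (0:ℝ))
    ((fun d : Fin 2 →₀ ℕ => ((d 0 : ℝ), (d 1 : ℝ))) '' (↑F.support : Set (Fin 2 →₀ ℕ))))

/-- The trapezoid `T_{m,n}`. -/
def trapezoid (m n : ℕ) : Set (ℝ × ℝ) :=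
  {p | 0 ≤ p.2 ∧ p.2 ≤ (n : ℝ) ∧ 0 ≤ p.1 ∧ p.1 ≤ (m : ℝ) + (n : ℝ) - p.2}

/-- The bracket `[F, G] = F_x G_y - F_y G_x`. -/
noncomputable def bracket (F G : MvPolynomial (Fin 2) ℂ) : MvPolynomial (Fin 2) ℂ :=
  pderiv 0 F * pderiv 1 G - pderiv 1 F * pderiv 0 G

/-- The composite polynomial map `T ∘ S`, with components `T i (S 0, S 1)`. -/
noncomputable def comp (T S : Fin 2 → MvPolynomial (Fin 2) ℂ) : Fin 2 → MvPolynomial (Fin 2) ℂ :=
  fun i => aeval S (T i)

/-- The composite `S_k ∘ (F, G) ∘ S_{k-1} ∘ ... ∘ (F, G) ∘ S_0` with `k` factors `(F, G)`. -/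
noncomputable def word (F G : MvPolynomial (Fin 2) ℂ) (S : ℕ → Fin 2 → MvPolynomial (Fin 2) ℂ) :
    ℕ → Fin 2 → MvPolynomial (Fin 2) ℂ
  | 0 => S 0
  | k + 1 => comp (S (k + 1)) (comp ![F, G] (word F G S k))

theorem pbL_app (u v : MvPolynomial (Fin 2) ℂ) : pbL ℂ u v = pb u v := rfl

/-- a polynomial map with nonzero constant Jacobian -/
theorem endo_of (T : Fin 2 → MvPolynomial (Fin 2) ℂ)
    (hT : ∃ c : ℂ, c ≠ 0 ∧ bracket (T 0) (T 1) = C c) :
    Endo (pbL ℂ) (aeval T : MvPolynomial (Fin 2) ℂ →ₐ[ℂ] MvPolynomial (Fin 2) ℂ) := by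
  obtain ⟨c, hc0, hc⟩ := hT
  refine ⟨?_, c, hc0, fun u v => ?_⟩
  · apply Pool.Agent.H922R2.aeval_injective
    have h1 : (Pool.Agent.H922R2.jac T).det = C c := by
      rw [Matrix.det_fin_two, ← hc]
      unfold bracket Pool.Agent.H922R2.jac
      simp only [Matrix.of_apply]
    rw [h1]
    exact (isUnit_iff_ne_zero.2 hc0).map C
  · rw [pbL_app, pbL_app]
    unfold pb
    simp only [Pool.Agent.H922R2.deriv_aeval, Fin.sum_univ_two, map_sub, map_mul]
    unfold bracket at hc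
    have h2 : (c : ℂ) • (aeval T (pderiv 0 u) * aeval T (pderiv 1 v) -
        aeval T (pderiv 1 u) * aeval T (pderiv 0 v)) =
        C c * (aeval T (pderiv 0 u) * aeval T (pderiv 1 v) -
        aeval T (pderiv 1 u) * aeval T (pderiv 0 v)) := by
      rw [smul_eq_C_mul]
    rw [h2, ← hc]
    ring

theorem kel_pbL : Kel (pbL ℂ) := by
  intro φ hφ hb
  obtain ⟨κ, hκ, h⟩ := hφ.comp
  refine Pool.Agent.H510R3.EG.kelp_holds ℂ φ κ hκ ?_ hb
  have h1 := h (X 0) (X 1)
  rw [pbL_app, pbL_app] at h1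
  rw [h1]
  have h2 : pb (X 0 : MvPolynomial (Fin 2) ℂ) (X 1) = 1 := by
    unfold pb
    simp [pderiv_X]
  rw [h2, map_one, smul_eq_C_mul, mul_one]

/-- Let `m, n > 0`, let the Newton polygon of `F` be the trapezoid `T_{m,n}` and let the bracket
`[F, G]` be constant. Let `S_0, S_1, ...` be polynomial maps with nonzero constant Jacobian and let
`M` be the composite `S_k ∘ (F, G) ∘ S_{k-1} ∘ ... ∘ (F, G) ∘ S_0` with `k` factors `(F, G)`. If for
some nonconstant polynomial `p` the degree `N` of `p ∘ M` satisfies `18 N ^ 2 < 2 ^ k`, then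
`[F, G] = 0`. -/
theorem result (m n : ℕ) (hm : 0 < m) (hn : 0 < n) (F G : MvPolynomial (Fin 2) ℂ)
    (h1 : newtonPolygon F = trapezoid m n) (h5 : ∃ c : ℂ, bracket F G = C c)
    (S : ℕ → Fin 2 → MvPolynomial (Fin 2) ℂ)
    (hS : ∀ i, ∃ c : ℂ, c ≠ 0 ∧ bracket (S i 0) (S i 1) = C c)
    (k : ℕ) (p : MvPolynomial (Fin 2) ℂ) (hp : ∀ c : ℂ, p ≠ C c)
    (hdeg : 18 * (aeval (word F G S k) p).totalDegree ^ 2 < 2 ^ k) : bracket F G = 0 := by
  obtain ⟨c, hc⟩ := h5
  by_cases hc0 : c = 0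
  · rw [hc, hc0, map_zero]
  exfalso
  have hE : Endo (pbL ℂ) (aeval ![F, G] : MvPolynomial (Fin 2) ℂ →ₐ[ℂ] MvPolynomial (Fin 2) ℂ) :=
    endo_of ![F, G] ⟨c, hc0, hc⟩
  have hns : ¬ Function.Surjective
      (aeval ![F, G] : MvPolynomial (Fin 2) ℂ →ₐ[ℂ] MvPolynomial (Fin 2) ℂ) := by
    intro hs
    let θ : Pool.Agent.H922R2.GA ℂ := AlgEquiv.ofBijective _ ⟨hE.inj, hs⟩
    refine Pool.Agent.V11321.TZ.not_coord hm hn h1 θ ?_
    change aeval ![F, G] (X 0) = F
    rw [aeval_X]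
    rfl
  have hchain : ∀ k, Chain (pbL ℂ) k
      (aeval (word F G S k) : MvPolynomial (Fin 2) ℂ →ₐ[ℂ] MvPolynomial (Fin 2) ℂ) := by
    intro k
    induction k with
    | zero => exact Chain.zero _ (endo_of _ (hS 0))
    | succ k ih =>
      have e : (aeval (word F G S (k + 1)) :
          MvPolynomial (Fin 2) ℂ →ₐ[ℂ] MvPolynomial (Fin 2) ℂ) =
          (aeval (word F G S k) : MvPolynomial (Fin 2) ℂ →ₐ[ℂ] MvPolynomial (Fin 2) ℂ).comp
            ((aeval ![F, G] : MvPolynomial (Fin 2) ℂ →ₐ[ℂ] MvPolynomial (Fin 2) ℂ).comp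
              (aeval (S (k + 1)))) := by
        apply MvPolynomial.algHom_ext
        intro i
        rw [AlgHom.comp_apply, AlgHom.comp_apply, aeval_X, aeval_X]
        change aeval (comp ![F, G] (word F G S k)) (S (k + 1) i) = _
        have h2 : (aeval (comp ![F, G] (word F G S k)) :
            MvPolynomial (Fin 2) ℂ →ₐ[ℂ] MvPolynomial (Fin 2) ℂ) =
            (aeval (word F G S k) : MvPolynomial (Fin 2) ℂ →ₐ[ℂ] MvPolynomial (Fin 2) ℂ).comp
              (aeval ![F, G]) := by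
          apply MvPolynomial.algHom_ext
          intro j
          rw [AlgHom.comp_apply, aeval_X, aeval_X]
          rfl
        rw [h2, AlgHom.comp_apply]
      rw [e]
      refine Chain.succ k _ _ ih (hE.mul (endo_of _ (hS (k + 1)))) ?_
      intro hs
      apply hns
      intro b
      obtain ⟨a, ha⟩ := hs b
      exact ⟨_, ha⟩
  have hg := growth_all Pool.Agent.H68R3.EG.lemm_holds sub_holds Pool.Agent.H87R3.EG.form_holds
    Pool.Agent.H790.EG.rone_holds Pool.Agent.H747R3.EG.rtwo_holds ani_holds (stdp_holds ℂ)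
    (fun v => by rw [pbL_app]; unfold pb; simp) kel_pbL k _ (hchain k) p
    (fun c => by rw [MvPolynomial.algebraMap_eq]; exact hp c)
    (aeval (word F G S k) p).totalDegree (by
      have := exists_bound (LinearEquiv.refl ℂ (MvPolynomial (Fin 2) ℂ))
        (aeval (word F G S k) p)
      simpa using this)
  omega

end Pool.Agent.Results.MP_2d59ee_ag.ExponentialGrowth
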