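import Pool.Agent.W420.OPC.Concl2
import Pool.Agent.H922R2.OPC.Final
import Pool.Agent.V11321.TZ.Coord

/-!
# Trapezoidal pairs for which a curve with one place at infinity is a component of the preimage of a
# curve with one place at infinity

Let `N⁰(F)` be a trapezoid and `[F, G]` constant.  Suppose that there are polynomials `f₁`, `f₂` which,
in suitable coordinates of the source and of the target, have one place at infinity, such that the
curve `f₁ = 0` is a union of connected components of the preimage of the curve `f₂ = 0` under `(F, G)`: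
`f₂ (F, G) = f₁ r` and `f₁`, `r` have no common zero.  Then `[F, G] = 0`.

Proof: library files `Pool.Agent.W420.OPC.Concl2` and `Pool.Agent.H922R2.OPC.Final` (Keller maps with
such a curve are automorphisms) and `Pool.Agent.V11321.TZ.Coord` (a trapezoid is not the Newton polygon
of a component of an automorphism).
-/

set_option autoImplicit false

open MvPolynomial

namespace Pool.Agent.Results.MP_2d59ee_ag.OnePlaceComponent

/-- The polygon `N⁰(F)`: the convex hull of the exponents of `F` and the origin. -/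
def newtonPolygon (F : MvPolynomial (Fin 2) ℂ) : Set (ℝ × ℝ) :=
  convexHull ℝ (insert ((0:ℝ), (0:ℝ))
    ((fun d : Fin 2 →₀ ℕ => ((d 0 : ℝ), (d 1 : ℝ))) '' (↑F.support : Set (Fin 2 →₀ ℕ))))

/-- The trapezoid `T_{m,n}`. -/
def trapezoid (m n : ℕ) : Set (ℝ × ℝ) :=
  {p | 0 ≤ p.2 ∧ p.2 ≤ (n : ℝ) ∧ 0 ≤ p.1 ∧ p.1 ≤ (m : ℝ) + (n : ℝ) - p.2}

/-- The bracket `[F, G] = F_x G_y - F_y G_x`. -/
noncomputable def bracket (F G : MvPolynomial (Fin 2) ℂ) : MvPolynomial (Fin 2) ℂ :=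
  pderiv 0 F * pderiv 1 G - pderiv 1 F * pderiv 0 G

/-- Laurent series in `t` with coefficients in `ℂ[λ]`. -/
abbrev Ser : Type := LaurentSeries (Polynomial ℂ)

/-- The substitution `t ↦ c t`. -/
noncomputable def rot (c : ℂ) (h : Ser) : Ser where
  coeff i := Polynomial.C (c ^ i) * h.coeff i
  isPWO_support' := h.isPWO_support.mono (by
    intro i hi h0
    exact hi (by simp only [h0, mul_zero]))

/-- The polynomial `f (t^(-n), Y)` in `Y`. -/
noncomputable def evY (n : ℕ) (f : MvPolynomial (Fin 2) ℂ) : Polynomial Ser :=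
  aeval ![Polynomial.C (HahnSeries.single (-(n : ℤ)) 1), Polynomial.X] f

/-- `f` has one place at infinity, in the given coordinates `x, y`: the curves `f = λ` have the
parametrisation `x = t^(-n)`, `y = φ(λ, t)` near infinity, that is
`f (t^(-n), Y) - λ = ∏ (Y - φ(λ, ζ^i t))` over `i < n` for a primitive `n`-th root of unity `ζ`. -/
def OnePlace (f : MvPolynomial (Fin 2) ℂ) : Prop :=
  ∃ (n : ℕ) (φ : Ser) (ζ : ℂ), 0 < n ∧ IsPrimitiveRoot ζ n ∧
    evY n f - Polynomial.C (HahnSeries.single 0 Polynomial.X) =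
      ∏ i ∈ Finset.range n, (Polynomial.X - Polynomial.C (rot (ζ ^ i) φ))

/-- Let `m, n > 0`, let the Newton polygon of `F` be the trapezoid `T_{m,n}` and let the bracket
`[F, G]` be constant.  Suppose that for some `f₁, f₂, r` one has `f₂ (F, G) = f₁ r`, where `f₁` and `r`
have no common zero in the plane and `f₁`, `f₂` have one place at infinity in suitable coordinates
(after automorphisms `Φ₁`, `Φ₂` of the source and the target).  Then `[F, G] = 0`. -/
theorem result (m n : ℕ) (hm : 0 < m) (hn : 0 < n) (F G : MvPolynomial (Fin 2) ℂ)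
    (h1 : newtonPolygon F = trapezoid m n) (h5 : ∃ c : ℂ, bracket F G = C c)
    (f₁ f₂ r : MvPolynomial (Fin 2) ℂ)
    (Φ₁ Φ₂ : MvPolynomial (Fin 2) ℂ ≃ₐ[ℂ] MvPolynomial (Fin 2) ℂ)
    (hf₁ : OnePlace (Φ₁ f₁)) (hf₂ : OnePlace (Φ₂ f₂)) (hmap : aeval ![F, G] f₂ = f₁ * r)
    (hsep : ∀ p : Fin 2 → ℂ, ¬ (eval p f₁ = 0 ∧ eval p r = 0)) : bracket F G = 0 := by
  obtain ⟨c', hc⟩ := h5
  by_cases hc0 : c' = 0
  · rw [hc, hc0, map_zero]
  exfalso
  obtain ⟨n₁, φ₁, ζ₁, hn₁, hζ₁, he₁⟩ := hf₁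
  obtain ⟨n₂, φ₂, ζ₂, hn₂, hζ₂, he₂⟩ := hf₂
  have hJ : IsUnit (Pool.Agent.H922R2.OPC.jac F G) := by
    change IsUnit (bracket F G)
    rw [hc]
    exact (isUnit_iff_ne_zero.2 hc0).map C
  obtain ⟨T', h2, h3⟩ := Pool.Agent.W420.OPC.concl2 (Pool.Agent.H922R2.OPC.mods ℂ) F G f₁ f₂ r hJ
    Φ₁ Φ₂ n₁ n₂ φ₁ φ₂ ζ₁ ζ₂ ⟨hn₁, hζ₁, he₁⟩ ⟨hn₂, hζ₂, he₂⟩ hmap
    (Pool.Agent.W420.OPC.comax f₁ r (fun p h h' => hsep p ⟨h, h'⟩))
  have key : ∀ (A B : Fin 2 → MvPolynomial (Fin 2) ℂ) (h : ∀ i, aeval A (B i) = X i)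
      (p : MvPolynomial (Fin 2) ℂ), aeval A (aeval B p) = p := by
    intro A B h p
    have h5 : (aeval A : MvPolynomial (Fin 2) ℂ →ₐ[ℂ] _).comp (aeval B) =
        AlgHom.id ℂ (MvPolynomial (Fin 2) ℂ) := by
      apply MvPolynomial.algHom_ext
      intro j
      rw [AlgHom.comp_apply, aeval_X, h]
      rfl
    exact congrArg (fun f => f p) h5
  have h4 := key ![F, G] T' h2
  have h6 := key T' ![F, G] h3
  let θ : Pool.Agent.H922R2.GA ℂ :=
    AlgEquiv.ofAlgHom (aeval ![F, G]) (aeval T')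
      (AlgHom.ext fun p => h4 p) (AlgHom.ext fun p => h6 p)
  refine Pool.Agent.V11321.TZ.not_coord hm hn h1 θ ?_
  change aeval ![F, G] (X 0) = F
  rw [aeval_X]
  rfl

end Pool.Agent.Results.MP_2d59ee_ag.OnePlaceComponent
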