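import Pool.Agent.H928R2.FolMain
import Pool.Agent.V11321.TZ.Coord

/-!
# Trapezoidal pairs which preserve a foliation, after composition and iteration

Conditions 1 and 5 of the problem (for `F` alone, `G` being arbitrary) force the bracket to vanish if
some iterate of some composite `(F, G) ∘ S` with a polynomial map `S` of nonzero constant Jacobian
preserves a foliation `A dx + B dy = 0` of the plane.  No degree or genericity condition is imposed on
the foliation, it need not have a first integral, an invariant curve or a symmetry.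

Proof: a plane polynomial map with nonzero constant Jacobian, an iterate of which preserves a
foliation, is an automorphism (library file `Pool.Agent.H928R2.FolMain`); a trapezoid is not the Newton
polygon of a component of an automorphism (`Pool.Agent.V11321.TZ.Coord`).
-/

set_option autoImplicit false

open MvPolynomial

namespace Pool.Agent.Results.MP_2d59ee_ag.PreservedFoliation

/-- The polygon `N⁰(F)`: the convex hull of the exponents of `F` and the origin. -/
def newtonPolygon (F : MvPolynomial (Fin 2) ℂ) : Set (ℝ × ℝ) :=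
  convexHull ℝ (insert ((0:ℝ), (0:ℝ))
    ((fun d : Fin 2 →₀ ℕ => ((d 0 : ℝ), (d 1 : ℝ))) '' (↑F.support : Set (Fin 2 →₀ ℕ))))

/-- The trapezoid `T_{m,n}`. -/
def trapezoid (m n : ℕ) : Set (ℝ × ℝ) :=
  {p | 0 ≤ p.2 ∧ p.2 ≤ (n : ℝ) ∧ 0 ≤ p.1 ∧ p.1 ≤ (m : ℝ) + (n : ℝ) - p.2}

/-- The bracket `[F, G] = F_x G_y - F_y G_x`. -/
noncomputable def bracket (F G : MvPolynomial (Fin 2) ℂ) : MvPolynomial (Fin 2) ℂ :=
  pderiv 0 F * pderiv 1 G - pderiv 1 F * pderiv 0 G

/-- The composite polynomial map `T ∘ S`, with components `T i (S 0, S 1)`. -/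
noncomputable def comp (T S : Fin 2 → MvPolynomial (Fin 2) ℂ) : Fin 2 → MvPolynomial (Fin 2) ℂ :=
  fun i => aeval S (T i)

/-- The `k`-th iterate of the polynomial map `T`. -/
noncomputable def iter (T : Fin 2 → MvPolynomial (Fin 2) ℂ) : ℕ → Fin 2 → MvPolynomial (Fin 2) ℂ
  | 0 => X
  | k + 1 => comp T (iter T k)

/-- The map `S` preserves the foliation given by the form `ω = A dx + B dy`: the pull-back
`A(S) dS₀ + B(S) dS₁` is proportional to `ω`. -/
def Preserves (S : Fin 2 → MvPolynomial (Fin 2) ℂ) (A B : MvPolynomial (Fin 2) ℂ) : Prop :=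
  (aeval S A * pderiv 0 (S 0) + aeval S B * pderiv 0 (S 1)) * B =
    (aeval S A * pderiv 1 (S 0) + aeval S B * pderiv 1 (S 1)) * A

theorem iter_eq (T : Fin 2 → MvPolynomial (Fin 2) ℂ) (k : ℕ) :
    iter T k = Pool.Agent.H928R2.Pen.itr T k := by
  induction k with
  | zero => rfl
  | succ k ih =>
    funext i
    change aeval (iter T k) (T i) = (aeval T : MvPolynomial (Fin 2) ℂ →ₐ[ℂ] _)^[k + 1] (X i)
    rw [ih, Pool.Agent.H928R2.Pen.aeval_itr, Function.iterate_succ_apply, aeval_X]

/-- Let `m, n > 0`, let the Newton polygon of `F` be the trapezoid `T_{m,n}` and let the bracket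
`[F, G]` be constant. Suppose that for some polynomial map `S` with nonzero constant Jacobian (for
instance the identity) and some `k ≥ 1` the `k`-th iterate of the composite `(F, G) ∘ S` preserves a
foliation `A dx + B dy = 0`, `(A, B) ≠ (0, 0)`. Then `[F, G] = 0`. -/
theorem result (m n : ℕ) (hm : 0 < m) (hn : 0 < n) (F G : MvPolynomial (Fin 2) ℂ)
    (h1 : newtonPolygon F = trapezoid m n) (h5 : ∃ c : ℂ, bracket F G = C c)
    (S : Fin 2 → MvPolynomial (Fin 2) ℂ) (hS : ∃ c : ℂ, c ≠ 0 ∧ bracket (S 0) (S 1) = C c)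
    (k : ℕ) (hk : 0 < k) (A B : MvPolynomial (Fin 2) ℂ) (hAB : A ≠ 0 ∨ B ≠ 0)
    (hinv : Preserves (iter (comp ![F, G] S) k) A B) : bracket F G = 0 := by
  obtain ⟨c, hc⟩ := h5
  by_cases hc0 : c = 0
  · rw [hc, hc0, map_zero]
  exfalso
  obtain ⟨s, hs0, hs⟩ := hS
  have hdet : ∀ T : Fin 2 → MvPolynomial (Fin 2) ℂ,
      (Matrix.of fun i j => pderiv j (T i)).det = bracket (T 0) (T 1) := by
    intro T
    rw [Matrix.det_fin_two]
    rfl
  have hJF : IsUnit (Matrix.of fun i j => pderiv j ((![F, G] : Fin 2 → _) i)).det := by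
    rw [hdet]
    change IsUnit (bracket F G)
    rw [hc]
    exact (isUnit_iff_ne_zero.2 hc0).map C
  have hJS : IsUnit (Matrix.of fun i j => pderiv j (S i)).det := by
    rw [hdet, hs]
    exact (isUnit_iff_ne_zero.2 hs0).map C
  set T := comp ![F, G] S with hT
  have hJT : IsUnit (Matrix.of fun i j => pderiv j (T i)).det := by
    have h1 : (Matrix.of fun i j => pderiv j (T i)) =
        (aeval S : MvPolynomial (Fin 2) ℂ →ₐ[ℂ] _).toRingHom.mapMatrix
          (Matrix.of fun i j => pderiv j ((![F, G] : Fin 2 → _) i)) *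
        (Matrix.of fun i j => pderiv j (S i)) := by
      ext i j
      rw [Matrix.of_apply, Matrix.mul_apply, hT]
      change coeff _ (pderiv j (aeval S ((![F, G] : Fin 2 → _) i))) = _
      rw [Pool.Agent.H922R2.deriv_aeval]
      rfl
    rw [h1, Matrix.det_mul, ← RingHom.map_det]
    exact (hJF.map _).mul hJS
  obtain ⟨T', hT1, hT2⟩ := Pool.Agent.H928R2.Pen.foliation_iterate T hJT k hk A B hAB (by
    rw [← iter_eq]
    exact hinv)
  have hSinj := Pool.Agent.H922R2.aeval_injective S hJS
  have hTp : ∀ p : MvPolynomial (Fin 2) ℂ, aeval T p = aeval S (aeval ![F, G] p) := by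
    intro p
    have h1 : (aeval T : MvPolynomial (Fin 2) ℂ →ₐ[ℂ] _) =
        (aeval S : MvPolynomial (Fin 2) ℂ →ₐ[ℂ] _).comp (aeval ![F, G]) := by
      apply MvPolynomial.algHom_ext
      intro j
      rw [AlgHom.comp_apply, aeval_X, aeval_X, hT]
      rfl
    exact congrArg (fun f => f p) h1
  have hFinj := Pool.Agent.H922R2.aeval_injective ![F, G] hJF
  have hH' : ∀ i, aeval S (aeval ![F, G] (T' i)) = X i := by
    intro i
    rw [← hTp, hT1]
  have hFid : ∀ i, aeval ![F, G] (aeval T' (S i)) = X i := by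
    intro i
    apply hSinj
    rw [← hTp, Pool.Agent.H928R2.Pen.algHom_id_of T T' hT1, aeval_X]
  have h2 : ∀ p, aeval ![F, G] (aeval (fun i => aeval T' (S i)) p) = p :=
    Pool.Agent.H928R2.Pen.algHom_id_of _ _ hFid
  have h3 : ∀ p, aeval (fun i => aeval T' (S i)) (aeval ![F, G] p) = p := by
    intro p
    apply hFinj
    rw [h2]
  let θ : Pool.Agent.H922R2.GA ℂ :=
    AlgEquiv.ofAlgHom (aeval ![F, G]) (aeval (fun i => aeval T' (S i)))
      (AlgHom.ext fun p => h2 p) (AlgHom.ext fun p => h3 p)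
  refine Pool.Agent.V11321.TZ.not_coord hm hn h1 θ ?_
  change aeval ![F, G] (X 0) = F
  rw [aeval_X]
  rfl

end Pool.Agent.Results.MP_2d59ee_ag.PreservedFoliation
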